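import Pool.Agent.Work.MP_f68f16_an.Stmts

/-! MP_f68f16_an, item D2 (helper17): choice of finitely many arcs. -/

set_option autoImplicit false

open MeasureTheory Metric Set Filter Topology

namespace MPf68f16

/-- pairwise different points in finitely many intervals -/
theorem exists_inj_choice (m : ℕ) (t e : Fin m → ℝ) (he : ∀ i, 0 < e i) :
    ∃ r : Fin m → ℝ, Function.Injective r ∧ ∀ i, |r i - t i| ≤ e i := by
  have h1 : ∀ i : Fin m, ∀ᶠ η : ℝ in 𝓝[>] 0, η * ((i : ℕ) + 1) < e i := by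
    intro i
    have h2 : Tendsto (fun η : ℝ => η * ((i : ℕ) + 1)) (𝓝[>] 0) (𝓝 (0 * ((i : ℕ) + 1))) :=
      ((continuous_id.mul continuous_const).tendsto 0).mono_left nhdsWithin_le_nhds
    rw [zero_mul] at h2
    exact h2.eventually (gt_mem_nhds (he i))
  have h2 : ∀ b : ℝ, ∀ᶠ η : ℝ in 𝓝[>] 0, η ≠ b := by
    intro b
    by_cases hb : b = 0
    · subst hb
      filter_upwards [self_mem_nhdsWithin] with η hη
      exact (ne_of_gt hη)
    · exact (tendsto_id.mono_left nhdsWithin_le_nhds).eventually_ne (Ne.symm hb)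
  have h3 : ∀ᶠ η : ℝ in 𝓝[>] 0, (∀ i : Fin m, η * ((i : ℕ) + 1) < e i) ∧
      (∀ i j : Fin m, η ≠ (t i - t j) / ((j : ℕ) - (i : ℕ))) ∧ 0 < η := by
    refine (eventually_all.2 h1).and (Eventually.and ?_ self_mem_nhdsWithin)
    exact eventually_all.2 fun i => eventually_all.2 fun j => h2 _
  obtain ⟨η, hη1, hη2, hη0⟩ := h3.exists
  refine ⟨fun i => t i + η * ((i : ℕ) + 1), fun i j hij => ?_, fun i => ?_⟩
  · by_contra hne
    have h4 : ((j : ℕ) : ℝ) - (i : ℕ) ≠ 0 := by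
      rw [sub_ne_zero]
      intro h
      exact hne (Fin.ext (by exact_mod_cast h.symm))
    refine hη2 i j ?_
    rw [eq_div_iff h4]
    simp only at hij
    linarith
  · rw [add_sub_cancel_left, abs_of_nonneg (by positivity)]
    exact (hη1 i).le

theorem pt_mem_ball {t θ : ℝ} (h0 : 0 < t) (h1 : t < 1) : pt t θ ∈ ball (0 : ℂ) 1 := by
  rw [mem_ball_zero_iff]
  unfold pt
  rw [norm_mul, Complex.norm_exp_ofReal_mul_I, mul_one, Complex.norm_real, Real.norm_of_nonneg h0.le]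
  exact h1

theorem pt_periodic (t θ : ℝ) (k : ℤ) : pt t (θ + 2 * Real.pi * k) = pt t θ := by
  unfold pt
  congr 1
  rw [Complex.exp_eq_exp_iff_exists_int]
  refine ⟨k, ?_⟩
  push_cast
  ring

theorem prf_D2 : S_D2 := by
  intro u hu hneg
  have hpt : Continuous (fun p : ℝ × ℝ => pt p.1 p.2) := by
    unfold pt
    fun_prop
  have hW : IsOpen ({p : ℝ × ℝ | 0 < p.1 ∧ p.1 < 1} ∩
      (fun p : ℝ × ℝ => u (pt p.1 p.2)) ⁻¹' Iio 0) := by
    refine ContinuousOn.isOpen_inter_preimage ?_ ?_ isOpen_Iio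
    · exact hu.comp hpt.continuousOn fun p hp => pt_mem_ball hp.1 hp.2
    · exact (isOpen_lt continuous_const continuous_fst).inter
        (isOpen_lt continuous_fst continuous_const)
  have hloc : ∀ θ : ℝ, ∃ t e : ℝ, 0 < e ∧ e ≤ 1 ∧ ∀ t' θ' : ℝ, |t' - t| ≤ e → |θ' - θ| ≤ e →
      0 < t' ∧ t' < 1 ∧ u (pt t' θ') < 0 := by
    intro θ
    obtain ⟨t, h0, h1, h2⟩ := hneg θ
    obtain ⟨ε, hε, hsub⟩ := Metric.isOpen_iff.1 hW (t, θ) ⟨⟨h0, h1⟩, h2⟩
    refine ⟨t, min (ε / 2) 1, by positivity, min_le_right _ _, fun t' θ' ht' hθ' => ?_⟩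
    have h3 : (t', θ') ∈ ball (t, θ) ε := by
      rw [mem_ball, Prod.dist_eq, max_lt_iff, Real.dist_eq, Real.dist_eq]
      have := min_le_left (ε / 2) 1
      exact ⟨by linarith, by linarith⟩
    obtain ⟨h4, h5⟩ := hsub h3
    exact ⟨h4.1, h4.2, h5⟩
  choose t e he0 he1 hte using hloc
  obtain ⟨s, _, hs⟩ := (isCompact_Icc (a := (0 : ℝ)) (b := 2 * Real.pi)).elim_nhds_subcover
    (fun θ => Ioo (θ - e θ) (θ + e θ))
    (fun θ _ => Ioo_mem_nhds (by linarith [he0 θ]) (by linarith [he0 θ]))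
  obtain ⟨r, hr1, hr2⟩ := exists_inj_choice s.card (fun i => t (s.equivFin.symm i))
    (fun i => e (s.equivFin.symm i)) (fun i => he0 _)
  refine ⟨s.card, r, fun i => s.equivFin.symm i, fun i => e (s.equivFin.symm i), hr1, ?_, ?_,
    fun i => he0 _, fun i => he1 _, fun i θ hθ => ?_, fun θ => ?_⟩
  · exact fun i => (hte _ (r i) _ (hr2 i) (by rw [sub_self, abs_zero]; exact (he0 _).le)).1
  · exact fun i => (hte _ (r i) _ (hr2 i) (by rw [sub_self, abs_zero]; exact (he0 _).le)).2.1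
  · exact (hte _ (r i) θ (hr2 i) hθ).2.2
  · have hpi := Real.two_pi_pos
    have h1 : θ + 2 * Real.pi * ((-⌊θ / (2 * Real.pi)⌋ : ℤ) : ℝ) ∈ Icc 0 (2 * Real.pi) := by
      have h2 := Int.floor_le (θ / (2 * Real.pi))
      have h3 := (Int.lt_floor_add_one (θ / (2 * Real.pi))).le
      rw [le_div_iff₀ hpi] at h2
      rw [div_le_iff₀ hpi] at h3
      push_cast
      constructor <;> nlinarith
    obtain ⟨x, hx, hx2⟩ := mem_iUnion₂.1 (hs h1)
    refine ⟨s.equivFin ⟨x, hx⟩, -⌊θ / (2 * Real.pi)⌋, ?_⟩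
    simp only [Equiv.symm_apply_apply]
    rw [abs_le]
    constructor
    · have := hx2.1
      linarith
    · have := hx2.2
      linarith

end MPf68f16
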