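import Pool.Agent.Work.MP_f68f16_an.Stmts

/-! Item N2: kernel bound at a node from a numerical certificate (helper90). -/

set_option autoImplicit false

open MeasureTheory Metric Set Filter Topology

namespace MPf68f16

namespace N2

/-- `f(η) = 2 l η - log(..)`. -/
noncomputable def f (x l η : ℝ) : ℝ :=
  2 * l * η - (Real.log (x ^ 2 + (1 + η) ^ 2) - Real.log (x ^ 2 + (1 - η) ^ 2))

/-- The quadratic. -/
def Q (x l E : ℝ) : ℝ :=
  l * E ^ 2 + (2 * l * (x ^ 2 - 1) + 2) * E + (x ^ 2 + 1) * (l * (x ^ 2 + 1) - 2)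

variable {x l : ℝ}

theorem pos1 (hx : 0 < x) (η : ℝ) : 0 < x ^ 2 + (1 + η) ^ 2 := by positivity

theorem pos2 (hx : 0 < x) (η : ℝ) : 0 < x ^ 2 + (1 - η) ^ 2 := by positivity

theorem gH_eq (hx : 0 < x) (η : ℝ) :
    gH x 1 η = (Real.log (x ^ 2 + (1 + η) ^ 2) - Real.log (x ^ 2 + (1 - η) ^ 2)) / 2 := by
  unfold gH
  rw [Real.log_div (pos1 hx η).ne' (pos2 hx η).ne']

theorem le_iff (hx : 0 < x) (η : ℝ) : gH x 1 η ≤ η * l ↔ 0 ≤ f x l η := by
  rw [gH_eq hx]
  unfold f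
  constructor <;> intro h <;> linarith

theorem hasDeriv (hx : 0 < x) (η : ℝ) :
    HasDerivAt (f x l) (2 * Q x l (η ^ 2) / ((x ^ 2 + (1 + η) ^ 2) * (x ^ 2 + (1 - η) ^ 2))) η := by
  have h1 : HasDerivAt (fun η : ℝ => x ^ 2 + (1 + η) ^ 2) (2 * (1 + η)) η := by
    have := ((hasDerivAt_id η).const_add 1).pow 2
    simpa using this.const_add (x ^ 2)
  have h2 : HasDerivAt (fun η : ℝ => x ^ 2 + (1 - η) ^ 2) (-(2 * (1 - η))) η := by
    have := ((hasDerivAt_id η).const_sub 1).pow 2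
    simpa using this.const_add (x ^ 2)
  have h3 : HasDerivAt (fun η : ℝ => 2 * l * η) (2 * l) η := by
    simpa using (hasDerivAt_id η).const_mul (2 * l)
  have h4 := h3.sub ((h1.log (pos1 hx η).ne').sub (h2.log (pos2 hx η).ne'))
  refine h4.congr_deriv ?_
  have e1 := (pos1 hx η).ne'
  have e2 := (pos2 hx η).ne'
  unfold Q
  field_simp
  ring

theorem cont (hx : 0 < x) : Continuous (f x l) :=
  continuous_iff_continuousAt.2 fun η => (hasDeriv hx η).continuousAt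

theorem mono (hx : 0 < x) {a b : ℝ} (hab : a ≤ b) (h : ∀ η, a < η → η < b → 0 ≤ Q x l (η ^ 2)) :
    f x l a ≤ f x l b := by
  have hm : MonotoneOn (f x l) (Icc a b) := by
    refine monotoneOn_of_deriv_nonneg (convex_Icc a b) (cont hx).continuousOn
      (fun η _ => (hasDeriv hx η).differentiableAt.differentiableWithinAt) fun η hη => ?_
    rw [interior_Icc] at hη
    rw [(hasDeriv hx η).deriv]
    have := h η hη.1 hη.2
    have h1 := pos1 hx η
    have h2 := pos2 hx η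
    positivity
  exact hm (left_mem_Icc.2 hab) (right_mem_Icc.2 hab) hab

theorem anti (hx : 0 < x) {a b : ℝ} (hab : a ≤ b) (h : ∀ η, a < η → η < b → Q x l (η ^ 2) ≤ 0) :
    f x l b ≤ f x l a := by
  have hm : AntitoneOn (f x l) (Icc a b) := by
    refine antitoneOn_of_deriv_nonpos (convex_Icc a b) (cont hx).continuousOn
      (fun η _ => (hasDeriv hx η).differentiableAt.differentiableWithinAt) fun η hη => ?_
    rw [interior_Icc] at hη
    rw [(hasDeriv hx η).deriv]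
    have := h η hη.1 hη.2
    have h1 := pos1 hx η
    have h2 := pos2 hx η
    refine div_nonpos_of_nonpos_of_nonneg (by linarith) (by positivity)
  exact hm (left_mem_Icc.2 hab) (right_mem_Icc.2 hab) hab

/-- Convexity of the quadratic. -/
theorem conv (a b c : ℝ) : (c - b) * Q x l a + (b - a) * Q x l c - (c - a) * Q x l b =
    l * ((c - b) * (b - a) * (c - a)) := by
  unfold Q
  ring

theorem f_zero (x l : ℝ) : f x l 0 = 0 := by
  unfold f
  simp

end N2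

open N2 in
theorem prf_N2 : S_N2 := by
  intro x l p q hx hl hp hpq hq1 hQ0 hQp hQq hlog η hη
  have hq : 0 < q := hp.trans hpq
  have hQp' : Q x l (p ^ 2) ≤ 0 := by
    unfold Q
    convert hQp using 1
    ring
  have hQq' : 0 ≤ Q x l (q ^ 2) := by
    unfold Q
    convert hQq using 1
    ring
  have hpq2 : p ^ 2 < q ^ 2 := by nlinarith
  -- (a)
  have ha : ∀ η, p ≤ η → η ≤ q → 0 ≤ f x l η := by
    intro η h1 h2
    rw [Real.log_div (pos1 hx q).ne' (pos2 hx q).ne'] at hlog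
    have h3 : Real.log (x ^ 2 + (1 + η) ^ 2) ≤ Real.log (x ^ 2 + (1 + q) ^ 2) := by
      refine Real.log_le_log (pos1 hx η) ?_
      nlinarith
    have h4 : Real.log (x ^ 2 + (1 - q) ^ 2) ≤ Real.log (x ^ 2 + (1 - η) ^ 2) := by
      refine Real.log_le_log (pos2 hx q) ?_
      nlinarith
    have h5 : 2 * l * p ≤ 2 * l * η := by nlinarith
    unfold f
    linarith
  rw [le_iff hx]
  rcases le_or_gt q η with h1 | h1
  · -- (b)
    refine (ha q hpq.le le_rfl).trans (mono hx h1 fun η' h2 h3 => ?_)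
    have h4 := conv (x := x) (l := l) (p ^ 2) (q ^ 2) (η' ^ 2)
    have h5 : 0 < η' ^ 2 - q ^ 2 := by nlinarith
    have h6 : 0 < q ^ 2 - p ^ 2 := by linarith
    have h7 : 0 < η' ^ 2 - p ^ 2 := by linarith
    have h8 : 0 ≤ l * ((η' ^ 2 - q ^ 2) * (q ^ 2 - p ^ 2) * (η' ^ 2 - p ^ 2)) := by positivity
    have h9 : 0 ≤ (η' ^ 2 - p ^ 2) * Q x l (q ^ 2) := mul_nonneg h7.le hQq'
    have h10 : (η' ^ 2 - q ^ 2) * Q x l (p ^ 2) ≤ 0 :=
      mul_nonpos_of_nonneg_of_nonpos h5.le hQp'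
    have h11 : 0 ≤ (q ^ 2 - p ^ 2) * Q x l (η' ^ 2) := by linarith
    exact nonneg_of_mul_nonneg_right h11 h6
  rcases le_or_gt p η with h2 | h2
  · exact ha η h2 h1.le
  -- (c)
  have hE : η ^ 2 < p ^ 2 := by nlinarith
  rcases le_or_gt 0 (Q x l (η ^ 2)) with h3 | h3
  · rw [← f_zero x l]
    refine mono hx hη.le fun η' h4 h5 => ?_
    have h6 := conv (x := x) (l := l) (η' ^ 2) (η ^ 2) (p ^ 2)
    have h7 : 0 < p ^ 2 - η ^ 2 := by linarith
    have h8 : 0 < η ^ 2 - η' ^ 2 := by nlinarith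
    have h9 : 0 < p ^ 2 - η' ^ 2 := by linarith
    have h10 : 0 ≤ l * ((p ^ 2 - η ^ 2) * (η ^ 2 - η' ^ 2) * (p ^ 2 - η' ^ 2)) := by positivity
    have h11 : 0 ≤ (p ^ 2 - η' ^ 2) * Q x l (η ^ 2) := mul_nonneg h9.le h3
    have h12 : (η ^ 2 - η' ^ 2) * Q x l (p ^ 2) ≤ 0 :=
      mul_nonpos_of_nonneg_of_nonpos h8.le hQp'
    have h13 : 0 ≤ (p ^ 2 - η ^ 2) * Q x l (η' ^ 2) := by linarith
    exact nonneg_of_mul_nonneg_right h13 h7
  · refine (ha p le_rfl hpq.le).trans (anti hx h2.le fun η' h4 h5 => ?_)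
    have h6 := conv (x := x) (l := l) (η ^ 2) (η' ^ 2) (p ^ 2)
    have h7 : 0 < p ^ 2 - η' ^ 2 := by nlinarith
    have h8 : 0 < η' ^ 2 - η ^ 2 := by nlinarith
    have h9 : 0 < p ^ 2 - η ^ 2 := by linarith
    have h10 : 0 ≤ l * ((p ^ 2 - η' ^ 2) * (η' ^ 2 - η ^ 2) * (p ^ 2 - η ^ 2)) := by positivity
    have h11 : (p ^ 2 - η' ^ 2) * Q x l (η ^ 2) ≤ 0 :=
      mul_nonpos_of_nonneg_of_nonpos h7.le h3.le
    have h12 : (η' ^ 2 - η ^ 2) * Q x l (p ^ 2) ≤ 0 :=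
      mul_nonpos_of_nonneg_of_nonpos h8.le hQp'
    have h13 : (p ^ 2 - η ^ 2) * Q x l (η' ^ 2) ≤ 0 := by linarith
    by_contra h14
    push_neg at h14
    have := mul_pos h9 h14
    linarith

end MPf68f16
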