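import Pool.Agent.Work.MP_f68f16_an.Stmts

/-! Item P1: Euler product for the Green function (helper90). -/

set_option autoImplicit false

open MeasureTheory Metric Set Filter Topology

namespace MPf68f16

namespace P1

/-- the complex number `ψ + i s` -/
noncomputable def w (ψ s : ℝ) : ℂ := (ψ : ℂ) + (s : ℂ) * Complex.I

theorem norm_w (ψ s : ℝ) : ‖w ψ s‖ = Real.sqrt (ψ ^ 2 + s ^ 2) := Complex.norm_add_mul_I ψ s

theorem w_ne {ψ : ℝ} (h : ψ ≠ 0) (s : ℝ) : w ψ s ≠ 0 := by
  intro h0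
  have := congrArg Complex.re h0
  simp [w] at this
  exact h this

theorem log_norm_w (ψ s : ℝ) : Real.log ‖w ψ s‖ = Real.log (ψ ^ 2 + s ^ 2) / 2 := by
  rw [norm_w, Real.log_sqrt (by positivity)]

theorem gH_eq {x : ℝ} (hx : x ≠ 0) (y η : ℝ) :
    gH x y η = Real.log ‖w x (y + η)‖ - Real.log ‖w x (y - η)‖ := by
  have h1 : 0 < x ^ 2 + (y + η) ^ 2 := by positivity
  have h2 : 0 < x ^ 2 + (y - η) ^ 2 := by positivity
  rw [log_norm_w, log_norm_w]
  unfold gH
  rw [Real.log_div h1.ne' h2.ne']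
  ring

/-- the partial Euler product -/
noncomputable def B (ψ s : ℝ) (N : ℕ) : ℂ :=
  Real.pi * (w ψ s / (2 * Real.pi)) *
    ∏ j ∈ Finset.range N, (1 - (w ψ s / (2 * Real.pi)) ^ 2 / ((j : ℂ) + 1) ^ 2)

theorem B_tendsto (ψ s : ℝ) :
    Tendsto (B ψ s) atTop (𝓝 (Complex.sin (w ψ s / 2))) := by
  have h := Complex.tendsto_euler_sin_prod (w ψ s / (2 * Real.pi))
  have e : (Real.pi : ℂ) * (w ψ s / (2 * Real.pi)) = w ψ s / 2 := by
    have : (Real.pi : ℂ) ≠ 0 := by exact_mod_cast Real.pi_ne_zero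
    field_simp
  rw [e] at h
  unfold B
  rw [e]
  exact h

/-- The constants. -/
noncomputable def E (N : ℕ) : ℝ :=
  Real.log 2 + ∑ j ∈ Finset.range N, Real.log ((2 * Real.pi * ((j : ℝ) + 1)) ^ 2)

theorem sum_log (ψ s : ℝ) (h : ∀ k : ℤ, ψ + 2 * Real.pi * k ≠ 0) (N : ℕ) :
    B ψ s N ≠ 0 ∧ ∑ k ∈ Finset.Icc (-(N : ℤ)) N, Real.log ‖w (ψ + 2 * Real.pi * k) s‖ =
      Real.log ‖B ψ s N‖ + E N := by
  have hpi : (Real.pi : ℂ) ≠ 0 := by exact_mod_cast Real.pi_ne_zero
  induction N with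
  | zero =>
    have h0 : w ψ s ≠ 0 := w_ne (by simpa using h 0) s
    have e : B ψ s 0 = w ψ s / 2 := by
      unfold B
      rw [Finset.range_zero, Finset.prod_empty]
      field_simp
    refine ⟨by rw [e]; exact div_ne_zero h0 two_ne_zero, ?_⟩
    rw [e]
    unfold E
    simp only [CharP.cast_eq_zero, neg_zero, Finset.Icc_self, Finset.sum_singleton,
      Int.cast_zero, mul_zero, add_zero, norm_div, Complex.norm_ofNat, Finset.range_zero,
      Finset.sum_empty]
    rw [Real.log_div (norm_ne_zero_iff.2 h0) two_ne_zero]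
    ring
  | succ N ih =>
    obtain ⟨ih1, ih2⟩ := ih
    set c : ℝ := 2 * Real.pi * ((N : ℝ) + 1) with hc
    have hc0 : 0 < c := by positivity
    have hcC : (c : ℂ) ≠ 0 := by exact_mod_cast hc0.ne'
    have hN : ((N : ℂ) + 1) ≠ 0 := by exact_mod_cast Nat.succ_ne_zero N
    have hp : w (ψ + 2 * Real.pi * (((N : ℤ) + 1 : ℤ) : ℝ)) s = w ψ s + c := by
      unfold w
      push_cast
      rw [hc]
      push_cast
      ring
    have hm : w (ψ + 2 * Real.pi * ((-((N : ℤ) + 1) : ℤ) : ℝ)) s = w ψ s - c := by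
      unfold w
      push_cast
      rw [hc]
      push_cast
      ring
    have hp0 : w ψ s + c ≠ 0 := by
      rw [← hp]
      exact w_ne (h _) s
    have hm0 : w ψ s - c ≠ 0 := by
      rw [← hm]
      exact w_ne (h _) s
    have hf : 1 - (w ψ s / (2 * Real.pi)) ^ 2 / ((N : ℂ) + 1) ^ 2 =
        -((w ψ s + c) * (w ψ s - c)) / (c : ℂ) ^ 2 := by
      rw [eq_div_iff (pow_ne_zero 2 hcC)]
      rw [hc]
      push_cast
      field_simp
      ring
    have hB : B ψ s (N + 1) = B ψ s N * (-((w ψ s + c) * (w ψ s - c)) / (c : ℂ) ^ 2) := by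
      unfold B
      rw [Finset.prod_range_succ, hf]
      ring
    have hne : (-((w ψ s + c) * (w ψ s - c)) / (c : ℂ) ^ 2) ≠ 0 :=
      div_ne_zero (neg_ne_zero.2 (mul_ne_zero hp0 hm0)) (pow_ne_zero 2 hcC)
    refine ⟨by rw [hB]; exact mul_ne_zero ih1 hne, ?_⟩
    rw [hB]
    have hs := Finset.sum_Icc_succ_eq_add_endpoints
      (fun k : ℤ => Real.log ‖w (ψ + 2 * Real.pi * k) s‖) (N := N)
    have hcast : ((N + 1 : ℕ) : ℤ) = (N : ℤ) + 1 := by push_cast; rfl
    rw [hcast, hs, ih2, hp, hm]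
    rw [norm_mul, norm_div, norm_neg, norm_mul, norm_pow, Complex.norm_real, Real.norm_eq_abs,
      abs_of_pos hc0]
    rw [Real.log_mul (norm_ne_zero_iff.2 ih1) (by
      refine div_ne_zero (mul_ne_zero (norm_ne_zero_iff.2 hp0) (norm_ne_zero_iff.2 hm0)) ?_
      positivity)]
    rw [Real.log_div (mul_ne_zero (norm_ne_zero_iff.2 hp0) (norm_ne_zero_iff.2 hm0))
      (by positivity), Real.log_mul (norm_ne_zero_iff.2 hp0) (norm_ne_zero_iff.2 hm0)]
    unfold E
    rw [Finset.sum_range_succ]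
    ring

theorem sin_ne {ψ : ℝ} (h : ∀ k : ℤ, ψ + 2 * Real.pi * k ≠ 0) (s : ℝ) :
    Complex.sin (w ψ s / 2) ≠ 0 := by
  intro h0
  obtain ⟨k, hk⟩ := Complex.sin_eq_zero_iff.1 h0
  have := congrArg Complex.re hk
  simp [w] at this
  have h1 := h (-k)
  apply h1
  push_cast
  linarith

theorem one_sub_exp (W : ℂ) : ‖1 - Complex.exp (W * Complex.I)‖ =
    2 * Real.exp (-(W.im / 2)) * ‖Complex.sin (W / 2)‖ := by
  have e : 1 - Complex.exp (W * Complex.I) =
      -(2 * Complex.I) * Complex.exp (W / 2 * Complex.I) * Complex.sin (W / 2) := by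
    unfold Complex.sin
    have h1 : Complex.exp (W * Complex.I) =
        Complex.exp (W / 2 * Complex.I) * Complex.exp (W / 2 * Complex.I) := by
      rw [← Complex.exp_add]
      congr 1
      ring
    have h2 : Complex.exp (W / 2 * Complex.I) * Complex.exp (-(W / 2) * Complex.I) = 1 := by
      rw [← Complex.exp_add]
      simp
    have h3 : Complex.I * Complex.I = -1 := Complex.I_mul_I
    rw [h1]
    linear_combination (-(1 : ℂ)) * h2 + Complex.exp (W / 2 * Complex.I) *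
      (Complex.exp (-(W / 2) * Complex.I) - Complex.exp (W / 2 * Complex.I)) * h3
  rw [e, norm_mul, norm_mul, norm_neg, norm_mul, Complex.norm_I, Complex.norm_exp]
  simp

theorem norm_sin_neg (ψ s : ℝ) : ‖Complex.sin (w (-ψ) s / 2)‖ = ‖Complex.sin (w ψ s / 2)‖ := by
  have e : w (-ψ) s / 2 = -((starRingEnd ℂ) (w ψ s / 2)) := by
    unfold w
    rw [map_div₀, map_add, map_mul, Complex.conj_I, Complex.conj_ofReal, Complex.conj_ofReal]
    have : (starRingEnd ℂ) (2 : ℂ) = 2 := by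
      exact Complex.conj_ofReal 2
    rw [this]
    push_cast
    ring
  rw [e, Complex.sin_neg, norm_neg, Complex.sin_conj, Complex.norm_conj]

end P1

open P1 in
theorem prf_P1 : S_P1 := by
  intro y η φ θ hy hη hk
  set ψ := θ - φ with hψ
  -- the sums
  have h1 : ∀ N : ℕ, ∑ k ∈ Finset.Icc (-(N : ℤ)) N, gH (ψ + 2 * Real.pi * k) y η =
      Real.log ‖B ψ (y + η) N‖ - Real.log ‖B ψ (y - η) N‖ := by
    intro N
    have h2 := (sum_log ψ (y + η) hk N).2
    have h3 := (sum_log ψ (y - η) hk N).2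
    have h4 : ∑ k ∈ Finset.Icc (-(N : ℤ)) N, gH (ψ + 2 * Real.pi * k) y η =
        ∑ k ∈ Finset.Icc (-(N : ℤ)) N, Real.log ‖w (ψ + 2 * Real.pi * k) (y + η)‖ -
        ∑ k ∈ Finset.Icc (-(N : ℤ)) N, Real.log ‖w (ψ + 2 * Real.pi * k) (y - η)‖ := by
      rw [← Finset.sum_sub_distrib]
      exact Finset.sum_congr rfl fun k _ => gH_eq (hk k) y η
    rw [h4, h2, h3]
    ring
  simp only [h1]
  have h2 : Tendsto (fun N => Real.log ‖B ψ (y + η) N‖ - Real.log ‖B ψ (y - η) N‖) atTop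
      (𝓝 (Real.log ‖Complex.sin (w ψ (y + η) / 2)‖ - Real.log ‖Complex.sin (w ψ (y - η) / 2)‖)) := by
    refine Tendsto.sub ?_ ?_
    · exact ((Real.continuousAt_log (norm_ne_zero_iff.2 (sin_ne hk _))).tendsto.comp
        (B_tendsto ψ (y + η)).norm)
    · exact ((Real.continuousAt_log (norm_ne_zero_iff.2 (sin_ne hk _))).tendsto.comp
        (B_tendsto ψ (y - η)).norm)
  convert h2 using 2
  -- the Green function
  have e1 : (starRingEnd ℂ) (pt (Real.exp (-η)) θ) * pt (Real.exp (-y)) φ =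
      Complex.exp (w (-ψ) (y + η) * Complex.I) := by
    unfold pt w
    rw [map_mul, Complex.conj_ofReal, ← Complex.exp_conj, map_mul, Complex.conj_I,
      Complex.conj_ofReal, Complex.ofReal_exp, Complex.ofReal_exp, ← Complex.exp_add,
      ← Complex.exp_add, ← Complex.exp_add]
    congr 1
    rw [hψ]
    push_cast
    linear_combination (-(y + η) : ℂ) * Complex.I_mul_I
  have e2 : pt (Real.exp (-y)) φ - pt (Real.exp (-η)) θ =
      -(pt (Real.exp (-η)) θ * (1 - Complex.exp (w (-ψ) (y - η) * Complex.I))) := by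
    have : pt (Real.exp (-η)) θ * Complex.exp (w (-ψ) (y - η) * Complex.I) =
        pt (Real.exp (-y)) φ := by
      unfold pt w
      rw [Complex.ofReal_exp, Complex.ofReal_exp, ← Complex.exp_add, ← Complex.exp_add,
        ← Complex.exp_add]
      congr 1
      rw [hψ]
      push_cast
      linear_combination ((y - η) : ℂ) * Complex.I_mul_I
    rw [mul_sub, mul_one, this]
    ring
  have e3 : ‖pt (Real.exp (-η)) θ‖ = Real.exp (-η) := by
    unfold pt
    rw [norm_mul, Complex.norm_exp_ofReal_mul_I, mul_one, Complex.norm_real, Real.norm_eq_abs,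
      abs_of_pos (Real.exp_pos _)]
  have e4 : ∀ s : ℝ, (w (-ψ) s).im = s := by
    intro s
    simp [w]
  unfold gD
  rw [e1, e2, norm_neg, norm_mul, e3, one_sub_exp, one_sub_exp, norm_sin_neg, norm_sin_neg, e4, e4]
  have n1 := norm_ne_zero_iff.2 (sin_ne hk (y + η))
  have n2 := norm_ne_zero_iff.2 (sin_ne hk (y - η))
  rw [Real.log_div (by positivity) (by positivity), Real.log_mul (by positivity) n1,
    Real.log_mul (Real.exp_ne_zero _) (by positivity), Real.log_mul (by positivity) n2,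
    Real.log_mul (by norm_num) (Real.exp_ne_zero _), Real.log_mul (by norm_num)
    (Real.exp_ne_zero _), Real.log_exp, Real.log_exp, Real.log_exp]
  ring

end MPf68f16
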