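import Pool.Agent.Work.MP_f68f16_an.Bd.B03
import Pool.Agent.Work.MP_f68f16_an.Bd.B02
import Pool.Agent.Work.MP_f68f16_an.Bd.B04
import Pool.Agent.Work.MP_f68f16_an.Item_N2
import Pool.Agent.Work.MP_f68f16_an.Item_P1
import Pool.Agent.Work.MP_f68f16_an.Bd.B05
import Pool.Agent.Work.MP_f68f16_an.Item_D2

/-! Assembly. -/

set_option autoImplicit false

namespace MPf68f16

theorem upper : S_UPPER :=
  let per : S_PER := prf_PER prf_P1 prf_POT0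
  upper_of (prf_N6 prf_N1 prf_N3 prf_N4 (prf_N5 prf_N2)) prf_HIT prf_POT1 prf_POT2 prf_POT3
    (prf_POT4 per prf_POT0) prf_POT5 prf_CI prf_MAX

theorem lower : S_LOWER :=
  lower_of (prf_GLUE prf_Q1 prf_Q2 prf_CPT (prf_FINE prf_Q1 prf_Q2 prf_Q3 prf_CPT) prf_NRE prf_NADD
      prf_NCOMP)
    (prf_CLUSTER prf_NLOG prf_NADD prf_Q1 prf_C1 prf_C2 prf_C3)
    (prf_PLATE prf_CHEB prf_MOM (prf_DMON prf_CHEB prf_MOM) prf_CN prf_NUM1 prf_NUM2)
    (prf_DOM prf_MAX prf_CI prf_D1 prf_D2)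

end MPf68f16
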