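import Mathlib

/-!
# Harmonic measure of the circle when the obstacle meets every radius: definitions

`Admissible D`: `D` is a domain in the unit disc which contains `0`, its boundary contains the unit
circle, and the rest of the boundary meets every radius.  `IsLower D u`: `u` belongs to the lower
(Perron) class of the boundary function which is `1` on the unit circle and `0` on the rest of the
boundary.  `omega D`: the value at `0` of the Perron solution, i.e. the harmonic measure
`ω(0; 𝕋, D)` of the unit circle.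
-/

set_option autoImplicit false

open MeasureTheory Metric Set Filter Topology

namespace MPf68f16

/-- `D` is a domain (nonempty, open, connected) in the unit disc with `0 ∈ D`, whose boundary
contains the unit circle, and the inner boundary `frontier D ∩ {|z| < 1}` meets every radius. -/
structure Admissible (D : Set ℂ) : Prop where
  isOpen : IsOpen D
  isPreconnected : IsPreconnected D
  zero_mem : (0 : ℂ) ∈ D
  subset : D ⊆ ball (0 : ℂ) 1
  sphere_subset : sphere (0 : ℂ) 1 ⊆ frontier D
  meets : ∀ θ : ℝ, ∃ t : ℝ, 0 ≤ t ∧ t < 1 ∧ (t : ℂ) * Complex.exp (θ * Complex.I) ∈ frontier D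

/-- The lower class of the Dirichlet problem in `D` with boundary values `1` on the unit circle and
`0` on the rest of the boundary: nonnegative upper semicontinuous functions on `D` with the sub mean
value property, whose upper limits at the boundary are at most the boundary values.  (Since the
boundary values are nonnegative, restricting to nonnegative functions does not change the upper
envelope.) -/
structure IsLower (D : Set ℂ) (u : ℂ → ℝ) : Prop where
  nonneg : ∀ z ∈ D, 0 ≤ u z
  usc : UpperSemicontinuousOn u D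
  submean : ∀ z r, 0 < r → closedBall z r ⊆ D → u z ≤ Real.circleAverage u z r
  outer : ∀ ζ ∈ frontier D, ‖ζ‖ = 1 → ∀ ε : ℝ, 0 < ε → ∀ᶠ z in 𝓝[D] ζ, u z < 1 + ε
  inner : ∀ ζ ∈ frontier D, ‖ζ‖ < 1 → ∀ ε : ℝ, 0 < ε → ∀ᶠ z in 𝓝[D] ζ, u z < ε

/-- The harmonic measure of the unit circle at `0` with respect to `D`: the value at `0` of the
Perron solution (the upper envelope of the lower class). -/
noncomputable def omega (D : Set ℂ) : ℝ := sSup {t | ∃ u, IsLower D u ∧ u 0 = t}

/-! ### Auxiliary definitions for the upper bound -/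

/-- The Green function of the unit disc. -/
noncomputable def gD (z a : ℂ) : ℝ :=
  Real.log (‖1 - (starRingEnd ℂ) a * z‖ / ‖z - a‖)

/-- The Green function of the upper half plane, poles at heights `y` and `η`, horizontal distance
`x`. -/
noncomputable def gH (x y η : ℝ) : ℝ :=
  Real.log ((x ^ 2 + (y + η) ^ 2) / (x ^ 2 + (y - η) ^ 2)) / 2

/-- The point of the plane with polar coordinates `t`, `θ`. -/
noncomputable def pt (t θ : ℝ) : ℂ := (t : ℂ) * Complex.exp (θ * Complex.I)

/-- Constant of the upper bound: `1 - 1 / K0 = 0.094`. -/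
noncomputable def K0 : ℝ := 500 / 453

/-- `H` is a majorant of the kernel. -/
structure Maj (H : ℝ → ℝ) (K : ℝ) : Prop where
  meas : Measurable H
  nonneg : ∀ x, 0 ≤ H x
  bound : ∀ x η : ℝ, x ≠ 0 → 0 < η → gH x 1 η ≤ η * H x
  integral : ∫⁻ x, ENNReal.ofReal (H x) ≤ ENNReal.ofReal (2 * Real.pi * K)

/-- `r` is a selection of the inner boundary of `D`. -/
structure Sel (D : Set ℂ) (r : ℝ → ℝ) : Prop where
  meas : Measurable r
  pos : ∀ θ, 0 < r θ
  lt_one : ∀ θ, r θ < 1
  mem : ∀ θ, pt (r θ) θ ∈ frontier D

/-- The truncated potential. -/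
noncomputable def pot (r : ℝ → ℝ) (ρ : ℝ) (z : ℂ) : ℝ :=
  (2 * Real.pi)⁻¹ * ∫ θ in Ioc 0 (2 * Real.pi),
    if r θ ≤ ρ then gD z (pt (r θ) θ) / Real.log (1 / r θ) else 0

/-! ### Auxiliary definitions for the lower bound -/

/-- Continuous functions on the unit disc all of whose compositions with analytic self maps of the
disc have the sub mean value property. -/
def Nice (u : ℂ → ℝ) : Prop :=
  ContinuousOn u (ball 0 1) ∧
  ∀ ψ : ℂ → ℂ, DifferentiableOn ℂ ψ (ball 0 1) → MapsTo ψ (ball 0 1) (ball 0 1) →
    ∀ z r, 0 < r → closedBall z r ⊆ ball 0 1 →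
      u (ψ z) ≤ Real.circleAverage (fun w => u (ψ w)) z r

/-- The class of competitors: nice functions `≤ 1` which are negative somewhere on every radius. -/
structure InA (u : ℂ → ℝ) : Prop where
  nice : Nice u
  le_one : ∀ z ∈ ball (0 : ℂ) 1, u z ≤ 1
  neg : ∀ θ : ℝ, ∃ t : ℝ, 0 < t ∧ t < 1 ∧ u (pt t θ) < 0

/-- The Möbius map `(M(z) - A) / (M(z) + A)`, where `M(z) = i (1 - z) / (1 + z)` maps the unit disc
to the upper half plane. -/
noncomputable def qA (A : ℝ) (z : ℂ) : ℂ :=
  (Complex.I * (1 - z) - A * (1 + z)) / (Complex.I * (1 - z) + A * (1 + z))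

/-- An analytic function in the disc whose real part is the harmonic measure of the arc
`|tan (θ / 2)| < A`. -/
noncomputable def FA (A : ℝ) (z : ℂ) : ℂ := -(Complex.I / Real.pi) * Complex.log (qA A z)

/-- The harmonic measure of the arc `|tan (θ / 2)| < A`. -/
noncomputable def hA (A : ℝ) (z : ℂ) : ℝ := (FA A z).re

/-- The analytic self map `exp (-n FA)` of the disc. -/
noncomputable def psi (A : ℝ) (n : ℕ) (z : ℂ) : ℂ := Complex.exp (-(n : ℂ) * FA A z)

/-- The cosine of the end point of the arc. -/
noncomputable def cA (A : ℝ) : ℝ := (1 - A ^ 2) / (1 + A ^ 2)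

/-- Blaschke factor of the point `ε (t + i)` of the half plane, read in the disc. -/
noncomputable def bl (ε t : ℝ) (z : ℂ) : ℂ :=
  (Complex.I * (1 - z) - ε * (t + Complex.I) * (1 + z)) /
    (Complex.I * (1 - z) - ε * (t - Complex.I) * (1 + z))

/-- The potential of the cluster, truncated near the charges. -/
noncomputable def PA (ι : Type) [Fintype ι] (t c : ι → ℝ) (ε τ : ℝ) (z : ℂ) : ℝ :=
  -∑ j, c j * Real.log (max ‖bl ε (t j) z‖ τ)

/-- The nodes `cos ((2 j + 1) π / (2 N))`, `j < N`. -/
noncomputable def node (N j : ℕ) : ℝ := Real.cos ((2 * j + 1) * Real.pi / (2 * N))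

/-- Condition on a cluster of charges on the line at height `1` over the interval `[-a, a]`. -/
structure Plate (ρ a b : ℝ) (ι : Type) [Fintype ι] (t c : ι → ℝ) : Prop where
  apos : 0 < a
  alt : a < 1
  ab : a < b
  cpos : ∀ j, 0 < c j
  mass : ∑ j, c j < a / Real.pi
  cover : ∀ x, |x| ≤ b → (∀ j, x ≠ t j) →
    ρ + Real.arctan (2 * a / (1 + x ^ 2 - a ^ 2)) / Real.pi <
      ∑ j, c j * (Real.log (((x - t j) ^ 2 + 4) / (x - t j) ^ 2) / 2)

end MPf68f16
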