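import Pool.Agent.Work.MP_f68f16_an.Defs

/-! Statements of the items. -/

set_option autoImplicit false

open MeasureTheory Metric Set Filter Topology

namespace MPf68f16

/-! ### Upper bound -/

def S_N1 : Prop := ∀ x η : ℝ, 1 / 3 ≤ x ^ 2 → 0 < η → gH x 1 η ≤ η * (2 / (1 + x ^ 2))

def S_N2 : Prop := ∀ x l p q : ℝ, 0 < x → 0 < l → 0 < p → p < q → q < 1 →
  0 ≤ (x ^ 2 + 1) * (l * (x ^ 2 + 1) - 2) →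
  l * p ^ 4 + (2 * l * (x ^ 2 - 1) + 2) * p ^ 2 + (x ^ 2 + 1) * (l * (x ^ 2 + 1) - 2) ≤ 0 →
  0 ≤ l * q ^ 4 + (2 * l * (x ^ 2 - 1) + 2) * q ^ 2 + (x ^ 2 + 1) * (l * (x ^ 2 + 1) - 2) →
  Real.log ((x ^ 2 + (1 + q) ^ 2) / (x ^ 2 + (1 - q) ^ 2)) ≤ 2 * l * p →
  ∀ η : ℝ, 0 < η → gH x 1 η ≤ η * l

def S_N3 : Prop := ∀ x0 x1 l0 l1 : ℝ, 0 < x1 → x1 < x0 →
  (∀ η : ℝ, 0 < η → gH x1 1 η ≤ η * l1) → (∀ η : ℝ, 0 < η → gH x0 1 η ≤ η * l0) →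
  ∀ x : ℝ, x1 ≤ x → x ≤ x0 → ∀ η : ℝ, 0 < η →
    gH x 1 η ≤ η * (l0 + (l1 - l0) * ((x0 ^ 2 - x ^ 2) / (x0 ^ 2 - x1 ^ 2)))

def S_N4 : Prop := ∀ x1 l1 e1 : ℝ, 0 < x1 → 0 < e1 → e1 < 1 →
  (∀ η : ℝ, 0 < η → gH x1 1 η ≤ η * l1) →
  Real.log ((1 + e1) / (1 - e1)) ≤ e1 * l1 →
  ∀ x : ℝ, 0 < x → x ≤ x1 → ∀ η : ℝ, 0 < η → gH x 1 η ≤ η * (l1 + Real.log (x1 / x) / e1)

/-- the table of nodes `(x, l)` -/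
def S_N5 : Prop := ∀ η : ℝ, 0 < η →
  gH 0.485 1 η ≤ η * 1.6336 ∧ gH 0.404 1 η ≤ η * 1.7792 ∧ gH 0.333 1 η ≤ η * 1.9390 ∧
  gH 0.271 1 η ≤ η * 2.1152 ∧ gH 0.218 1 η ≤ η * 2.3071 ∧ gH 0.172 1 η ≤ η * 2.5217 ∧
  gH 0.136 1 η ≤ η * 2.7393 ∧ gH 0.107 1 η ≤ η * 2.9657 ∧ gH 0.085 1 η ≤ η * 3.1860 ∧
  gH 0.067 1 η ≤ η * 3.4163 ∧ gH 0.052 1 η ≤ η * 3.6638 ∧ gH 0.040 1 η ≤ η * 3.9218 ∧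
  gH 0.029 1 η ≤ η * 4.2397 ∧ gH 0.021 1 η ≤ η * 4.5602

/-- existence of the majorant -/
def S_N6 : Prop := ∃ H : ℝ → ℝ, Maj H K0

/-- Euler product in the form of Green functions -/
def S_P1 : Prop := ∀ y η φ θ : ℝ, 0 < y → 0 < η → (∀ k : ℤ, θ - φ + 2 * Real.pi * k ≠ 0) →
  Tendsto (fun N : ℕ => ∑ k ∈ Finset.Icc (-(N : ℤ)) N, gH (θ - φ + 2 * Real.pi * k) y η) atTop
    (𝓝 (gD (pt (Real.exp (-y)) φ) (pt (Real.exp (-η)) θ)))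

def S_PER : Prop := ∀ (H : ℝ → ℝ) (K : ℝ), Maj H K → 1 ≤ K → ∀ z ∈ ball (0 : ℂ) 1, ∀ r : ℝ → ℝ,
  Measurable r → (∀ θ, 0 < r θ) → (∀ θ, r θ < 1) →
  ∫⁻ θ in Ioc 0 (2 * Real.pi), ENNReal.ofReal (gD z (pt (r θ) θ) / Real.log (1 / r θ)) ≤
    ENNReal.ofReal (2 * Real.pi * K)

def S_HIT : Prop := ∀ D : Set ℂ, Admissible D → ∃ r : ℝ → ℝ, Sel D r

def S_POT0 : Prop := ∀ z a : ℂ, ‖z‖ < 1 → ‖a‖ < 1 → 0 ≤ gD z a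

def S_POT1 : Prop := ∀ (D : Set ℂ) (r : ℝ → ℝ) (ρ : ℝ), Admissible D → Sel D r → ρ < 1 →
  ContinuousOn (pot r ρ) D

def S_POT2 : Prop := ∀ (D : Set ℂ) (r : ℝ → ℝ) (ρ : ℝ), Admissible D → Sel D r → ρ < 1 →
  ∀ z s, 0 < s → closedBall z s ⊆ D → Real.circleAverage (pot r ρ) z s = pot r ρ z

def S_POT3 : Prop := ∀ r : ℝ → ℝ, Measurable r → (∀ θ, 0 < r θ) → (∀ θ, r θ < 1) →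
  ∀ ρ ε : ℝ, ρ < 1 → 0 < ε → ∃ s : ℝ, s < 1 ∧ ∀ z : ℂ, s < ‖z‖ → ‖z‖ < 1 → pot r ρ z ≤ ε

def S_POT4 : Prop := ∀ (H : ℝ → ℝ) (K : ℝ), Maj H K → 1 ≤ K → ∀ r : ℝ → ℝ,
  Measurable r → (∀ θ, 0 < r θ) → (∀ θ, r θ < 1) → ∀ ρ : ℝ, ∀ z : ℂ, ‖z‖ < 1 →
  0 ≤ pot r ρ z ∧ pot r ρ z ≤ K

def S_POT5 : Prop := ∀ r : ℝ → ℝ, Measurable r → (∀ θ, 0 < r θ) → (∀ θ, r θ < 1) →
  ∀ ε : ℝ, 0 < ε → ∃ ρ : ℝ, ρ < 1 ∧ 1 - ε < pot r ρ 0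

def S_CI : Prop := ∀ (D : Set ℂ) (u : ℂ → ℝ), UpperSemicontinuousOn u D → (∀ z ∈ D, 0 ≤ u z) →
  ∀ z r, 0 < r → closedBall z r ⊆ D → CircleIntegrable u z r

def S_MAX : Prop := ∀ (D : Set ℂ) (w : ℂ → ℝ), IsOpen D → D ⊆ ball 0 1 →
  UpperSemicontinuousOn w D → (∃ M : ℝ, ∀ z ∈ D, -M ≤ w z) →
  (∀ z r, 0 < r → closedBall z r ⊆ D → w z ≤ Real.circleAverage w z r) →
  (∀ ζ ∈ frontier D, ∀ ε : ℝ, 0 < ε → ∀ᶠ z in 𝓝[D] ζ, w z < ε) → ∀ z ∈ D, w z ≤ 0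

/-- the upper bound -/
def S_UPPER : Prop := ∀ D : Set ℂ, Admissible D → omega D ≤ 0.094

/-! ### Lower bound -/

def S_NLOG : Prop := ∀ (f : ℂ → ℂ) (τ : ℝ), DifferentiableOn ℂ f (ball 0 1) → 0 < τ →
  Nice (fun z => Real.log (max ‖f z‖ τ))

def S_NRE : Prop := ∀ f : ℂ → ℂ, DifferentiableOn ℂ f (ball 0 1) → Nice (fun z => (f z).re)

def S_NADD : Prop := ∀ u v : ℂ → ℝ, Nice u → Nice v → ∀ a b : ℝ, 0 ≤ a → 0 ≤ b →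
  Nice (fun z => a * u z + b * v z)

def S_NCOMP : Prop := ∀ (u : ℂ → ℝ) (ψ : ℂ → ℂ), Nice u → DifferentiableOn ℂ ψ (ball 0 1) →
  MapsTo ψ (ball 0 1) (ball 0 1) → Nice (fun z => u (ψ z))

def S_D1 : Prop := ∀ (m : ℕ) (r α δ : Fin m → ℝ), Function.Injective r →
  (∀ i, 0 < r i) → (∀ i, r i < 1) → (∀ i, 0 < δ i) → (∀ i, δ i ≤ 1) →
  let E : Set ℂ := {z | ∃ i θ, |θ - α i| ≤ δ i ∧ z = pt (r i) θ}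
  IsClosed E ∧ IsPreconnected (ball (0 : ℂ) 1 \ E) ∧ frontier (ball (0 : ℂ) 1 \ E) = sphere 0 1 ∪ E

def S_D2 : Prop := ∀ u : ℂ → ℝ, ContinuousOn u (ball 0 1) →
  (∀ θ : ℝ, ∃ t : ℝ, 0 < t ∧ t < 1 ∧ u (pt t θ) < 0) →
  ∃ (m : ℕ) (r α δ : Fin m → ℝ), Function.Injective r ∧ (∀ i, 0 < r i) ∧ (∀ i, r i < 1) ∧
    (∀ i, 0 < δ i) ∧ (∀ i, δ i ≤ 1) ∧ (∀ i θ, |θ - α i| ≤ δ i → u (pt (r i) θ) < 0) ∧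
    ∀ θ : ℝ, ∃ i, ∃ k : ℤ, |θ + 2 * Real.pi * k - α i| ≤ δ i

def S_DOM : Prop := ∀ u : ℂ → ℝ, InA u → 0 < u 0 → ∃ D : Set ℂ, Admissible D ∧ u 0 ≤ omega D

def S_Q1 : Prop := ∀ A : ℝ, 0 < A →
  (∀ z ∈ ball (0 : ℂ) 1, Complex.I * (1 - z) + A * (1 + z) ≠ 0 ∧ 0 < (qA A z).im) ∧
  DifferentiableOn ℂ (FA A) (ball 0 1) ∧ (∀ z ∈ ball (0 : ℂ) 1, 0 < hA A z ∧ hA A z < 1) ∧
  hA A 0 = 2 * Real.arctan A / Real.pi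

def S_Q2 : Prop := ∀ A : ℝ, 0 < A → ∀ z ∈ ball (0 : ℂ) 1,
  A / (2 * Real.pi * (1 + A ^ 2)) * (1 - ‖z‖) ≤ hA A z

def S_Q3 : Prop := ∀ A d : ℝ, 0 < A → 0 < d → ∃ C : ℝ, ∀ θ : ℝ, Real.cos θ ≤ cA A - d →
  ContinuousOn (fun r : ℝ => hA A (pt r θ)) (Icc 0 1) ∧ hA A (pt 1 θ) = 0 ∧
  ∀ r ∈ Icc (1 / 2 : ℝ) 1, |(FA A (pt r θ)).im - (FA A (pt 1 θ)).im| ≤ C * (1 - r) ^ 2

/-- compactness: uniform choice of the point on the radius -/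
def S_CPT : Prop := ∀ (g : ℂ → ℝ) (ρ κ : ℝ), ContinuousOn g (ball 0 1) →
  (∀ θ : ℝ, κ ≤ Real.cos θ → ∃ t : ℝ, 0 < t ∧ t < 1 ∧ ρ < g (pt t θ)) →
  ∃ t0 t1 ρ' : ℝ, 0 < t0 ∧ t0 < 1 ∧ t1 < 1 ∧ ρ < ρ' ∧
    ∀ θ : ℝ, κ ≤ Real.cos θ → ∃ t : ℝ, t0 ≤ t ∧ t ≤ t1 ∧ ρ' ≤ g (pt t θ)

def S_FINE : Prop := ∀ A d : ℝ, 0 < A → 0 < d → ∀ u : ℂ → ℝ, ContinuousOn u (ball 0 1) →
  (∀ θ : ℝ, ∃ t : ℝ, 0 < t ∧ t < 1 ∧ u (pt t θ) < 0) → ∀ C : ℝ, 0 ≤ C →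
  ∃ N : ℕ, ∀ n ≥ N, ∀ θ : ℝ, Real.cos θ ≤ cA A - d →
    ∃ r : ℝ, 0 < r ∧ r < 1 ∧ u (psi A n (pt r θ)) + C * hA A (pt r θ) < 0

/-- the gluing lemma -/
def S_GLUE : Prop := ∀ (A d ρ : ℝ) (P : ℂ → ℝ), 0 < A → 0 < d → 0 < ρ → Nice (fun z => -P z) →
  (∀ z ∈ ball (0 : ℂ) 1, 0 ≤ P z) →
  (∀ θ : ℝ, cA A - d ≤ Real.cos θ →
    ∃ t : ℝ, 0 < t ∧ t < 1 ∧ ρ < P (pt t θ) - hA A (pt t θ)) →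
  P 0 < hA A 0 → ∀ R : ℝ, R < ρ / (1 + ρ) → ∃ u : ℂ → ℝ, InA u ∧ R < u 0

def S_C1 : Prop := ∀ ε t : ℝ, 0 < ε → ε < 1 →
  DifferentiableOn ℂ (bl ε t) (ball 0 1) ∧ (∀ z ∈ ball (0 : ℂ) 1, ‖bl ε t z‖ < 1) ∧
  (1 - ε) / (1 + ε) ≤ ‖bl ε t 0‖

def S_C2 : Prop := ∀ a ε x : ℝ, 0 < ε → 0 < a →
  (∀ t : ℝ, bl ε t (pt (Real.exp (-(2 * ε))) (2 * ε * x)) =
    (Complex.tan (ε * (x + Complex.I)) / ε - (t + Complex.I)) /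
      (Complex.tan (ε * (x + Complex.I)) / ε - (t - Complex.I))) ∧
  qA (a * ε) (pt (Real.exp (-(2 * ε))) (2 * ε * x)) =
    (Complex.tan (ε * (x + Complex.I)) / ε - a) / (Complex.tan (ε * (x + Complex.I)) / ε + a)

def S_C3 : Prop := ∀ (Λ : ℂ → ℝ) (ρ b : ℝ), ContinuousOn Λ {w : ℂ | 0 < w.im} →
  (∀ x : ℝ, |x| ≤ b → ρ < Λ (x + Complex.I)) →
  ∀ᶠ ε : ℝ in 𝓝[>] 0, ∀ x : ℝ, |x| ≤ b → ρ < Λ (Complex.tan (ε * (x + Complex.I)) / ε)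

def S_CLUSTER : Prop := ∀ (ρ a b : ℝ) (ι : Type) [Fintype ι] (t c : ι → ℝ), 0 < ρ →
  Plate ρ a b ι t c → ∃ (A d : ℝ) (P : ℂ → ℝ), 0 < A ∧ 0 < d ∧ Nice (fun z => -P z) ∧
  (∀ z ∈ ball (0 : ℂ) 1, 0 ≤ P z) ∧
  (∀ θ : ℝ, cA A - d ≤ Real.cos θ →
    ∃ t : ℝ, 0 < t ∧ t < 1 ∧ ρ < P (pt t θ) - hA A (pt t θ)) ∧ P 0 < hA A 0

def S_CHEB : Prop := ∀ N : ℕ, 1 ≤ N → ∀ x : ℝ, |x| ≤ 1 →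
  ∏ j ∈ Finset.range N, |x - node N j| ≤ 2 / 2 ^ N

def S_MOM : Prop := ∀ N : ℕ, 2 ≤ N → ∑ j ∈ Finset.range N, node N j = 0 ∧
  ∑ j ∈ Finset.range N, node N j ^ 2 = N / 2 ∧ ∑ j ∈ Finset.range N, node N j ^ 3 = 0

def S_DMON : Prop := ∀ N : ℕ, 2 ≤ N → ∀ x : ℝ, |x| ≤ 1 → (∀ j ∈ Finset.range N, x ≠ node N j) →
  ∑ j ∈ Finset.range N, (1 - node N j ^ 2) * Real.log |x - node N j| ≤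
    -((N : ℝ) - 1) * Real.log 2 + N * x ^ 2 / 2 -
      ∑ j ∈ Finset.range N, node N j ^ 2 * Real.log |node N j|

def S_CN : Prop := ∀ ε : ℝ, 0 < ε → ∃ N0 : ℕ, ∀ N ≥ N0,
  N * (1 / 4 - Real.log 2 / 2 - ε) ≤ ∑ j ∈ Finset.range N, node N j ^ 2 * Real.log |node N j|

/-- the two numerical inequalities at the end points -/
def S_NUM1 : Prop :=
  0.06953 + Real.arctan (2 * 0.281 / (1 - 0.281 ^ 2)) / Real.pi + 0.00002 <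
    0.08944 * Real.log (4 / 0.2811) + 0.0123 / 2 + 0.12 * (0.07714 * 0.2811 ^ 2 / 2)

def S_NUM2 : Prop :=
  0.06953 + Real.arctan (2 * 0.281 / (1 + 0.2811 ^ 2 - 0.281 ^ 2)) / Real.pi + 0.00002 <
    0.08944 * Real.log (4 / 0.2811) - 0.0123 / 2 +
      0.12 * (0.08944 * 0.2811 ^ 2 + 0.07714 * 0.2811 ^ 2 / 2)

def S_PLATE : Prop := ∃ (m : ℕ) (t c : Fin m → ℝ), Plate 0.06953 0.281 0.2811 (Fin m) t c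

/-- the lower bound -/
def S_LOWER : Prop := ∃ D : Set ℂ, Admissible D ∧ 0.065 < omega D

end MPf68f16
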